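import Pool.Agent.P.MP_898f40_nt.Bet.PgBr

namespace Pool.Agent.Results.MP_898f40_nt.Betti

open Module Polynomial Pool.Agent.P.MP_898f40_nt.Bet

/-- A numerical criterion for integrality and independence of the local Euler factor. -/
theorem result {ι : Type} {K S : ι → Type} [∀ l, Field (K l)] [∀ l, CharZero (K l)]
    [∀ l, AddCommGroup (S l)] [∀ l, Module (K l) (S l)] [∀ l, FiniteDimensional (K l) (S l)]
    {q n : ℕ} (X : ∀ l, Pg (K l) (S l) q n) (c : ∀ l, (X l).Cut) (i : ℤ) (s : ℕ → ℕ → ℚ)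
    (t : ℕ → ℕ → ℕ → ℚ) (hs : ∀ l a k, (X l).tr a (i - a) 0 k = s a k)
    (ht : ∀ l a m k, (c l).tr a (i - a) m k = t a m k) (l₀ : ι)
    (hb : ∀ l, ((X l).E2 i).dim = ((X l₀).E2 i).dim)
    (h0 : ((X l₀).E2 i).dim = (X l₀).null i) :
    ∃ P : ℤ[X], ∀ l, (c l).euler i = P.map (Int.castRingHom (K l)) :=
  Pg.betti X c i s t hs ht l₀ hb h0

end Pool.Agent.Results.MP_898f40_nt.Betti
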