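import Pool.Agent.P.MP_898f40_nt.OneCorr

/-!
Local Euler factors from one prime. Two Weil cohomology theories are applied to one complex of
algebraic correspondences (the first page of the weight spectral sequence of a semistable model).
If homological and numerical equivalence agree for the first theory, its Euler factor is integral,
the Euler factor of the second theory divides it, and the two agree as soon as weight-monodromy
holds for the first theory.
-/

open Module Polynomial Pool.Agent.P.MP_638e8a_ag.H58 Pool.Agent.P.MP_898f40_nt.One

universe u v v' w w'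

namespace Pool.Agent.Results.MP_898f40_nt.OnePrime

theorem result {k : Type u} [Field k] {A : Chow k} {K : Type v} [Field K] [CharZero K]
    {K' : Type v'} [Field K'] [CharZero K'] (W : Weil.{u, v, w} A K) (W' : Weil.{u, v', w'} A K')
    {n : ℕ} (Y : Fin n → SmProj k) (c t : Fin n → ℤ)
    (M : Page (grade W Y c t)) (M' : Page (grade W' Y c t))
    (hd : Alg W W' Y M.d M'.d) (hN : Alg W W' Y M.N M'.N) (hF : Alg W W' Y M.F M'.F)
    (hK : ∀ x, Kunneth W W' (Y x)) (hD : ∀ x y, HomNum W ((Y x).prod (Y y)))
    (hI : IsIntegral ℤ M.F) (i : ℤ) (hb : M.betti i ≤ M'.betti i) :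
    ∃ P : ℤ[X], M.euler i = P.map (Int.castRingHom K) ∧
      M'.euler i ∣ P.map (Int.castRingHom K') ∧
      (M.WM i → M'.euler i = P.map (Int.castRingHom K')) :=
  (setup M M' hd hN hK hD).euler hF hb hI

end Pool.Agent.Results.MP_898f40_nt.OnePrime
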